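import Mathlib
import Pool.Agent.Lib.MP_695920_nt.Tow.CritMain
import Pool.Agent.Lib.MP_695920_nt.Tow.Clo

set_option autoImplicit false

open NumberField Module

namespace Pool.Agent.Results.MP_695920_nt.GroupCriterion

/-- Every orbit of `N` on the cosets of `H` is contained in an orbit of the cyclic group generated
by `g`. -/
def Sweeps {G : Type} [Group G] (H N : Subgroup G) (g : G) : Prop :=
  ∀ x : G ⧸ H, ∀ n ∈ N, ∃ i : ℤ, n • x = g ^ i • x

/-- `l` is an odd prime, the index of `H` in `HN` is a power of `l` and some term of the derived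
series of `HN` is contained in `H`. -/
def PrimePower (l : ℕ) {G : Type} [Group G] (H N : Subgroup G) : Prop :=
  l.Prime ∧ l ≠ 2 ∧ (∃ j : ℕ, H.relIndex (H ⊔ N) = l ^ j) ∧
    ∃ k : ℕ, ∀ x ∈ derivedSeries (H ⊔ N : Subgroup G) k, (x : G) ∈ H

/-- No element of `N` sweeps; or the sweeping elements and `N` lie in a proper subgroup; or
`PrimePower`. -/
def Good (l : ℕ) {G : Type} [Group G] (H N : Subgroup G) : Prop :=
  (∀ g ∈ N, ¬ Sweeps H N g) ∨
  (∃ R : Subgroup G, R ≠ ⊤ ∧ N ≤ R ∧ ∀ g : G, Sweeps H N g → g ∈ R) ∨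
  PrimePower l H N

/-- `Good` for every normal subgroup `N` of the Galois group which is contained in the group of `S`
and not contained in the group of any of the fields in `K`. -/
def Criterion (l : ℕ) {L : Type} [Field L] [NumberField L] (M S : IntermediateField ℚ L)
    (K : Set (IntermediateField ℚ L)) : Prop :=
  ∀ N : Subgroup (L ≃ₐ[ℚ] L), N.Normal → N ≤ S.fixingSubgroup →
    (∀ F ∈ K, ¬ N ≤ F.fixingSubgroup) → Good l M.fixingSubgroup N

/-- The conjugates of `M` generate `L`. -/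
def Generates {L : Type} [Field L] [NumberField L] (M : IntermediateField ℚ L) : Prop :=
  (⨆ σ : L ≃ₐ[ℚ] L, M.map (σ : L →ₐ[ℚ] L)) = ⊤

/-- The number of ideal classes killed by `l`. -/
noncomputable def tors (M : Type) [Field M] (l : ℕ) : ℕ :=
  Nat.card {x : ClassGroup (𝓞 M) // x ^ l = 1}

/-- The absolute value of the discriminant. -/
noncomputable def absDisc (M : Type) [Field M] [NumberField M] : ℝ := |(discr M : ℝ)|

open Pool.Agent.Lib.MP_695920_nt.Tow in
lemma sweeps_iff {G : Type} [Group G] (H N : Subgroup G) (g : G) :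
    Sweeps H N g ↔ g ∈ cset H N := by
  constructor
  · intro h n hn y
    obtain ⟨i, hi⟩ := h (y : G ⧸ H) n hn
    have h1 : ((g ^ i * y : G) : G ⧸ H) = ((n * y : G) : G ⧸ H) := hi.symm
    rw [QuotientGroup.eq] at h1
    refine ⟨i, (g ^ i * y)⁻¹ * (n * y), h1, ?_⟩
    group
  · intro h x n hn
    obtain ⟨y, rfl⟩ := QuotientGroup.mk_surjective x
    obtain ⟨i, k, hk, e⟩ := h n hn y
    refine ⟨i, ?_⟩
    change ((n * y : G) : G ⧸ H) = ((g ^ i * y : G) : G ⧸ H)
    rw [e]
    symm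
    rw [QuotientGroup.eq]
    have : (g ^ i * y)⁻¹ * (g ^ i * y * k) = k := by group
    rw [this]
    exact hk

open Pool.Agent.Lib.MP_695920_nt.Tow in
lemma good_crit {l : ℕ} {G : Type} [Group G] {H N : Subgroup G} (h : Good l H N) :
    V2.Crit2 l H N := by
  rcases h with h | ⟨R, hR, hNR, h⟩ | h
  · exact Or.inl fun g hg hc => h g hg ((sweeps_iff H N g).mpr hc)
  · refine Or.inr (Or.inl fun htop => hR ?_)
    rw [eq_top_iff, ← htop]
    unfold cgrp
    rw [Subgroup.closure_le]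
    rintro g (hg | hg)
    · exact h g ((sweeps_iff H N g).mpr hg)
    · exact hNR hg
  · exact Or.inr (Or.inr h)

lemma core_of_closure {L : Type} [Field L] [NumberField L] [IsGalois ℚ L]
    (M : IntermediateField ℚ L) (h : (⨆ σ : L ≃ₐ[ℚ] L, M.map (σ : L →ₐ[ℚ] L)) = ⊤) :
    M.fixingSubgroup.normalCore = ⊥ := by
  rw [Subgroup.eq_bot_iff_forall]
  intro g hg
  have hfix : ∀ (σ : L ≃ₐ[ℚ] L) (x : L), x ∈ M → g (σ x) = σ x := by
    intro σ x hx
    have h1 : σ⁻¹ * g * σ⁻¹⁻¹ ∈ M.fixingSubgroup := hg σ⁻¹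
    rw [IntermediateField.mem_fixingSubgroup_iff] at h1
    have h2 := h1 x hx
    rw [inv_inv, AlgEquiv.mul_apply, AlgEquiv.mul_apply] at h2
    have h3 := congrArg σ h2
    rw [← AlgEquiv.mul_apply, mul_inv_cancel, AlgEquiv.one_apply] at h3
    exact h3
  have hle : (⨆ σ : L ≃ₐ[ℚ] L, M.map (σ : L →ₐ[ℚ] L)) ≤
      IntermediateField.fixedField (Subgroup.zpowers g) := by
    apply iSup_le
    intro σ
    rintro _ ⟨x, hx, rfl⟩
    rintro ⟨g', hg'⟩
    have h2 : g ∈ MulAction.stabilizer (L ≃ₐ[ℚ] L) (σ x) := hfix σ x hx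
    exact (Subgroup.zpowers_le.mpr h2) hg'
  rw [h] at hle
  ext x
  exact hle (IntermediateField.mem_top : x ∈ (⊤ : IntermediateField ℚ L))
    ⟨g, Subgroup.mem_zpowers g⟩

theorem result (n l : ℕ) (hl : 0 < l) :
    ∃ δ : ℝ, 0 < δ ∧ ∀ ε : ℝ, 0 < ε → ∃ C : ℝ,
      ∀ (L : Type) [Field L] [NumberField L] [IsGalois ℚ L] (M S : IntermediateField ℚ L)
        (K : Set (IntermediateField ℚ L)) (T : ℝ),
        finrank ℚ M = n → Generates M → (∃ F ∈ K, F ≤ M) → 0 < T → (∀ F ∈ K, T ≤ absDisc F) →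
        Criterion l M S K →
        (tors M l : ℝ) ≤ C * absDisc M ^ (1 / 2 + ε) * absDisc S * T ^ (-δ) := by
  obtain ⟨δ, hδ, hmain⟩ := Pool.Agent.Lib.MP_695920_nt.Tow.V2.crit_main n l hl
  refine ⟨δ, hδ, fun ε hε => ?_⟩
  obtain ⟨C, hC⟩ := hmain ε hε
  refine ⟨C, ?_⟩
  intro L _ _ _ M S K T hM hcl hK hT hKT hgood
  exact hC L M S K T hM (core_of_closure M hcl) hT hK hKT
    (fun N hN h1 h2 => good_crit (hgood N hN h1 h2))

/-! Consequences -/

lemma tors_le {A B : Type} [Field A] [NumberField A] [Field B] [NumberField B] (e : A ≃ₐ[ℚ] B)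
    (l : ℕ) : tors A l ≤ tors B l :=
  Pool.Agent.Lib.MP_695920_nt.Solv.card_tors_le_of_equiv
    (RingOfIntegers.mapRingEquiv e.toRingEquiv) l

lemma absDisc_eq {A B : Type} [Field A] [NumberField A] [Field B] [NumberField B]
    (e : A ≃ₐ[ℚ] B) : absDisc A = absDisc B := by
  unfold absDisc
  rw [discr_eq_discr_of_algEquiv _ e]

lemma absDisc_bot {L : Type} [Field L] [NumberField L] :
    absDisc (⊥ : IntermediateField ℚ L) = 1 := by
  rw [absDisc_eq (IntermediateField.botEquiv ℚ L)]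
  unfold absDisc
  rw [Rat.numberField_discr]
  norm_num

/-- The case `K = {M}`, `S = ℚ` of the criterion: an exponent smaller than `1 / 2`. -/
theorem good_bound (n l : ℕ) (hl : 0 < l) : ∃ Δ : ℝ, Δ < 1 / 2 ∧ ∃ C : ℝ,
    ∀ (L : Type) [Field L] [NumberField L] [IsGalois ℚ L] (M : IntermediateField ℚ L),
      finrank ℚ M = n → Generates M →
      (∀ N : Subgroup (L ≃ₐ[ℚ] L), N.Normal → ¬ N ≤ M.fixingSubgroup →
        Good l M.fixingSubgroup N) →
      (tors M l : ℝ) ≤ C * absDisc M ^ Δ := by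
  obtain ⟨δ, hδ, h⟩ := result n l hl
  obtain ⟨C, hC⟩ := h (δ / 2) (by positivity)
  refine ⟨1 / 2 - δ / 2, by linarith, C, fun L _ _ _ M hM hgen hgood => ?_⟩
  have hD : 0 < absDisc M := abs_pos.mpr (by exact_mod_cast discr_ne_zero M)
  have h1 := hC L M ⊥ {M} (absDisc M) hM hgen ⟨M, rfl, le_rfl⟩ hD
    (fun F hF => by rw [Set.mem_singleton_iff.mp hF])
    (fun N hN _ hNM => hgood N hN (hNM M rfl))
  rw [absDisc_bot, mul_one, mul_assoc, ← Real.rpow_add hD] at h1
  have h2 : 1 / 2 + δ / 2 + -δ = 1 / 2 - δ / 2 := by ring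
  rw [h2] at h1
  exact h1

lemma le_zpowers_of_sweeps {G : Type} [Group G] {N : Subgroup G} {g : G}
    (h : Sweeps (⊥ : Subgroup G) N g) : N ≤ Subgroup.zpowers g := by
  intro n hn
  obtain ⟨i, hi⟩ := h ((1 : G) : G ⧸ (⊥ : Subgroup G)) n hn
  have h1 : ((g ^ i * 1 : G) : G ⧸ (⊥ : Subgroup G)) = ((n * 1 : G) : G ⧸ (⊥ : Subgroup G)) :=
    hi.symm
  rw [QuotientGroup.eq, Subgroup.mem_bot, mul_one, mul_one] at h1
  exact ⟨i, inv_mul_eq_one.mp h1⟩

lemma good_of_center {G : Type} [Group G] (l : ℕ) (hcen : Subgroup.center G = ⊥)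
    {N : Subgroup G} (hN : N ≠ ⊥) : Good l (⊥ : Subgroup G) N := by
  by_cases hc : ∃ g, Sweeps ⊥ N g
  · refine Or.inr (Or.inl ⟨Subgroup.centralizer (N : Set G), ?_, ?_, ?_⟩)
    · intro htop
      have h1 := Subgroup.centralizer_eq_top_iff_subset.mp htop
      rw [hcen] at h1
      exact hN (le_bot_iff.mp h1)
    · obtain ⟨g, hg⟩ := hc
      intro x hx
      rw [Subgroup.mem_centralizer_iff]
      intro y hy
      obtain ⟨i, rfl⟩ := le_zpowers_of_sweeps hg hx
      obtain ⟨j, rfl⟩ := le_zpowers_of_sweeps hg hy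
      exact (Commute.zpow_zpow_self g j i).eq
    · intro g hg
      rw [Subgroup.mem_centralizer_iff]
      intro y hy
      obtain ⟨j, rfl⟩ := le_zpowers_of_sweeps hg hy
      exact (Commute.zpow_self g j).eq
  · exact Or.inl fun g _ hg => hc ⟨g, hg⟩

/-- For every `n` and every `l`: an exponent smaller than `1 / 2` for all Galois fields of degree
`n` whose Galois group has trivial centre. -/
theorem galois_centreless (n l : ℕ) (hl : 0 < l) : ∃ Δ : ℝ, Δ < 1 / 2 ∧ ∃ C : ℝ,
    ∀ (M : Type) [Field M] [NumberField M] [IsGalois ℚ M], finrank ℚ M = n →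
      Subgroup.center (M ≃ₐ[ℚ] M) = ⊥ →
      (Nat.card {x : ClassGroup (𝓞 M) // x ^ l = 1} : ℝ) ≤ C * |(discr M : ℝ)| ^ Δ := by
  obtain ⟨Δ, hΔ, C, hC⟩ := good_bound n l hl
  refine ⟨Δ, hΔ, C, fun M _ _ _ hn hcen => ?_⟩
  have hfix : (⊤ : IntermediateField ℚ M).fixingSubgroup = ⊥ :=
    IntermediateField.fixingSubgroup_top
  have h1 := hC M ⊤ (by rw [IntermediateField.finrank_top', hn]) (by
    refine top_le_iff.mp ?_
    refine le_trans ?_ (le_iSup (fun σ : M ≃ₐ[ℚ] M =>
      (⊤ : IntermediateField ℚ M).map (σ : M →ₐ[ℚ] M)) 1)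
    intro x _
    exact ⟨x, trivial, rfl⟩) (by
    intro N _ hN
    rw [hfix] at hN ⊢
    exact good_of_center l hcen fun h => hN h.le)
  have h2 := tors_le (IntermediateField.topEquiv (F := ℚ) (E := M)).symm l
  rw [← absDisc_eq (IntermediateField.topEquiv (F := ℚ) (E := M)).symm] at h1
  exact (Nat.cast_le.mpr h2).trans h1

/-- For every odd prime `l` and every `k`: an exponent smaller than `1 / 2` for the `l`-torsion of
all fields of degree `l ^ k` with solvable Galois closure. -/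
theorem solvable_prime_power_degree (l k : ℕ) (hl : l.Prime) (hl2 : l ≠ 2) :
    ∃ Δ : ℝ, Δ < 1 / 2 ∧ ∃ C : ℝ,
      ∀ (K L : Type) [Field K] [NumberField K] [Field L] [NumberField L] [Algebra K L]
        [IsGalois ℚ L] [Group.IsSolvable (L ≃ₐ[ℚ] L)], finrank ℚ K = l ^ k →
        (Nat.card {x : ClassGroup (𝓞 K) // x ^ l = 1} : ℝ) ≤ C * |(discr K : ℝ)| ^ Δ := by
  obtain ⟨Δ, hΔ, C, hC⟩ := good_bound (l ^ k) l hl.pos
  refine ⟨Δ, hΔ, C, ?_⟩
  intro K L _ _ _ _ _ _ hs hn
  obtain ⟨M, hgal, j, hgen, -, -, hsolv⟩ := Pool.Agent.Lib.MP_695920_nt.Tow.exists_closure K L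
  have hM : Group.IsSolvable (M ≃ₐ[ℚ] M) := hsolv hs
  let e : K ≃ₐ[ℚ] j.fieldRange := AlgEquiv.ofInjectiveField j
  have hdeg : finrank ℚ j.fieldRange = l ^ k := by
    rw [← hn]
    exact e.toLinearEquiv.finrank_eq.symm
  have h1 := hC M j.fieldRange hdeg hgen (by
    intro N _ _
    refine Or.inr (Or.inr ⟨hl, hl2, ?_, ?_⟩)
    · have h3 : j.fieldRange.fixingSubgroup.relIndex (j.fieldRange.fixingSubgroup ⊔ N) ∣ l ^ k := by
        rw [← hdeg, Pool.Agent.Lib.MP_695920_nt.Tow.finrank_index (F := ℚ) j.fieldRange]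
        exact Subgroup.relIndex_dvd_index_of_le le_sup_left
      obtain ⟨i, -, hi⟩ := (Nat.dvd_prime_pow hl).mp h3
      exact ⟨i, hi⟩
    · have h4 : Group.IsSolvable (j.fieldRange.fixingSubgroup ⊔ N : Subgroup (M ≃ₐ[ℚ] M)) :=
        Group.isSolvable_of_isSolvable_injective (Subgroup.subtype_injective _)
      obtain ⟨i, hi⟩ := h4.solvable
      refine ⟨i, fun x hx => ?_⟩
      rw [hi, Subgroup.mem_bot] at hx
      rw [hx]
      exact Subgroup.one_mem _)
  have h2 := tors_le e l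
  rw [← absDisc_eq e] at h1
  exact (Nat.cast_le.mpr h2).trans h1

lemma zpow_restrict {L : Type} [Field L] [NumberField L] (M : IntermediateField ℚ L)
    (g : M ≃ₐ[ℚ] M) (g' : L ≃ₐ[ℚ] L) (h : ∀ x : M, g' (x : L) = (g x : M)) (i : ℤ) (x : M) :
    (g' ^ i) (x : L) = ((g ^ i) x : M) := by
  induction i using Int.induction_on generalizing x with
  | zero => simp
  | succ n ih =>
    rw [zpow_add_one, zpow_add_one, AlgEquiv.mul_apply, AlgEquiv.mul_apply, h, ih]
  | pred n ih =>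
    have h1 : g'⁻¹ (x : L) = ((g⁻¹ x : M) : L) := by
      have h2 := h (g⁻¹ x)
      rw [← AlgEquiv.mul_apply, mul_inv_cancel, AlgEquiv.one_apply] at h2
      rw [← h2, ← AlgEquiv.mul_apply, inv_mul_cancel, AlgEquiv.one_apply]
    rw [zpow_sub_one, zpow_sub_one, AlgEquiv.mul_apply, AlgEquiv.mul_apply, h1, ih]

/-- For every `n` and every `l`: an exponent smaller than `1 / 2` for all fields `K` of degree `n`
without proper intermediate fields such that no automorphism of a Galois field `L` containing `K`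
permutes the embeddings of `K` in `L` transitively (in other words, no prime number is inert in
`K`). -/
theorem primitive_no_inert (n l : ℕ) (hl : 0 < l) : ∃ Δ : ℝ, Δ < 1 / 2 ∧ ∃ C : ℝ,
    ∀ (K L : Type) [Field K] [NumberField K] [Field L] [NumberField L] [Algebra K L]
      [IsGalois ℚ L], finrank ℚ K = n → (∀ F : IntermediateField ℚ K, F = ⊥ ∨ F = ⊤) →
      (∀ g : L ≃ₐ[ℚ] L, ∃ s t : K →ₐ[ℚ] L, ∀ i : ℤ, ∃ x : K, (g ^ i) (s x) ≠ t x) →
      (Nat.card {x : ClassGroup (𝓞 K) // x ^ l = 1} : ℝ) ≤ C * |(discr K : ℝ)| ^ Δ := by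
  obtain ⟨Δ, hΔ, C, hC⟩ := good_bound n l hl
  refine ⟨Δ, hΔ, C, ?_⟩
  intro K L _ _ _ _ _ _ hn hprim hinert
  obtain ⟨M, hgal, j, hgen, hlift, hemb, -⟩ :=
    Pool.Agent.Lib.MP_695920_nt.Tow.exists_closure K L
  let e : K ≃ₐ[ℚ] j.fieldRange := AlgEquiv.ofInjectiveField j
  have hdeg : finrank ℚ j.fieldRange = n := by
    rw [← hn]
    exact e.toLinearEquiv.finrank_eq.symm
  have h1 := hC M j.fieldRange hdeg hgen (by
    intro N hN hNH
    left
    intro g hg hsw
    set H := j.fieldRange.fixingSubgroup with hH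
    -- `H` and `N` generate the whole group
    have htop : H ⊔ N = ⊤ := by
      have hle : IntermediateField.fixedField (H ⊔ N) ≤ j.fieldRange := by
        have h2 : IntermediateField.fixedField H = j.fieldRange :=
          IsGalois.fixedField_fixingSubgroup j.fieldRange
        rw [← h2]
        exact IntermediateField.fixedField_antitone le_sup_left
      rcases hprim ((IntermediateField.fixedField (H ⊔ N)).comap j) with h3 | h3
      · have h4 : IntermediateField.fixedField (H ⊔ N) = ⊥ := by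
          rw [eq_bot_iff]
          intro x hx
          obtain ⟨y, rfl⟩ := hle hx
          have h5 : y ∈ (IntermediateField.fixedField (H ⊔ N)).comap j := hx
          rw [h3, IntermediateField.mem_bot] at h5
          obtain ⟨q, rfl⟩ := h5
          rw [IntermediateField.mem_bot]
          exact ⟨q, by simp⟩
        have h5 := congrArg IntermediateField.fixingSubgroup h4
        rwa [IntermediateField.fixingSubgroup_fixedField, IntermediateField.fixingSubgroup_bot]
          at h5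
      · exfalso
        apply hNH
        have h4 : j.fieldRange ≤ IntermediateField.fixedField (H ⊔ N) := by
          rintro _ ⟨y, rfl⟩
          have h5 : y ∈ (IntermediateField.fixedField (H ⊔ N)).comap j := by
            rw [h3]
            exact IntermediateField.mem_top
          exact h5
        exact le_sup_right.trans ((IntermediateField.le_iff_le _ _).mp h4)
    -- an element of the Galois group of `L` which restricts to `g`
    obtain ⟨g', hg'⟩ := hlift g
    obtain ⟨s, t, hst⟩ := hinert g'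
    obtain ⟨s', hs'⟩ := hemb s
    obtain ⟨t', ht'⟩ := hemb t
    -- embeddings of `K` in `M` are conjugate to `j`
    have hconj : ∀ f : K →ₐ[ℚ] M, ∃ b : M ≃ₐ[ℚ] M, ∀ x : K, b (j x) = f x := by
      intro f
      let e' : j.fieldRange →ₐ[ℚ] M := f.comp e.symm.toAlgHom
      let b' : M →ₐ[ℚ] M := AlgHom.liftNormal e' M
      refine ⟨AlgEquiv.ofBijective b' (Algebra.IsAlgebraic.algHom_bijective b'), fun x => ?_⟩
      have h1 := AlgHom.liftNormal_commutes e' M (e x)
      have h3 : e' (e x) = f x := by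
        change f (e.symm (e x)) = _
        rw [AlgEquiv.symm_apply_apply]
      rw [h3] at h1
      exact h1
    obtain ⟨b, hb⟩ := hconj s'
    obtain ⟨c, hc⟩ := hconj t'
    -- `N` is transitive on the cosets of `H`
    have hex : ∃ i : ℤ, (c : (M ≃ₐ[ℚ] M) ⧸ H) = g ^ i • (b : (M ≃ₐ[ℚ] M) ⧸ H) := by
      have hmem : ∀ a : M ≃ₐ[ℚ] M, ∃ m ∈ N, (a : (M ≃ₐ[ℚ] M) ⧸ H) = (m : (M ≃ₐ[ℚ] M) ⧸ H) := by
        intro a
        have ha : a ∈ N ⊔ H := by
          rw [sup_comm, htop]
          exact Subgroup.mem_top _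
        obtain ⟨m, hm, h, hh, rfl⟩ := Subgroup.mem_sup_of_normal_left.mp ha
        refine ⟨m, hm, ?_⟩
        rw [eq_comm, QuotientGroup.eq, inv_mul_cancel_left]
        exact hh
      obtain ⟨m, hm, hcm⟩ := hmem c
      obtain ⟨m', hm', hbm⟩ := hmem b
      obtain ⟨i, hi⟩ := hsw (b : (M ≃ₐ[ℚ] M) ⧸ H) (m * m'⁻¹) (N.mul_mem hm (N.inv_mem hm'))
      refine ⟨i, ?_⟩
      rw [← hi, hbm, hcm]
      change (m : (M ≃ₐ[ℚ] M) ⧸ H) = ((m * m'⁻¹ * m' : M ≃ₐ[ℚ] M) : (M ≃ₐ[ℚ] M) ⧸ H)
      rw [inv_mul_cancel_right]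
    obtain ⟨i, hi⟩ := hex
    obtain ⟨x, hx⟩ := hst i
    apply hx
    have h6 : (g ^ i * b)⁻¹ * c ∈ H := by
      rw [← QuotientGroup.eq]
      exact hi.symm
    rw [hH, IntermediateField.mem_fixingSubgroup_iff] at h6
    have h7 := congrArg (g ^ i * b) (h6 (j x) ⟨x, rfl⟩)
    rw [← AlgEquiv.mul_apply, mul_inv_cancel_left, AlgEquiv.mul_apply, hb, hc] at h7
    rw [← hs' x, ← ht' x, h7]
    exact zpow_restrict M g g' hg' i (s' x))
  have h2 := tors_le e l
  rw [← absDisc_eq e] at h1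
  exact (Nat.cast_le.mpr h2).trans h1

end Pool.Agent.Results.MP_695920_nt.GroupCriterion
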