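import Mathlib
import Pool.Agent.Lib.MP_695920_nt.Solv.Red

set_option autoImplicit false

open NumberField Module

namespace Pool.Agent.Results.MP_695920_nt.SolvablePrimeDegree

theorem result (l : ℕ) (hl : l.Prime) (hl2 : l ≠ 2) (ε : ℝ) (hε : 0 < ε) :
    ∃ C : ℝ, ∀ (K L : Type) [Field K] [NumberField K] [Field L] [NumberField L] [Algebra K L]
      [IsGalois ℚ L] [Group.IsSolvable (L ≃ₐ[ℚ] L)], finrank ℚ K = l →
      (Nat.card {x : ClassGroup (𝓞 K) // x ^ l = 1} : ℝ) ≤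
        C * |(discr K : ℝ)| ^ (1 / 2 - 1 / (2 * (l : ℝ) * ((l : ℝ) - 1)) + ε) := by
  obtain ⟨C, -, hC⟩ := Pool.Agent.Lib.MP_695920_nt.Solv.solvable_prime_degree l hl hl2 ε hε
  exact ⟨C, hC⟩

end Pool.Agent.Results.MP_695920_nt.SolvablePrimeDegree
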