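import Mathlib
import Pool.Agent.Lib.MP_695920_nt.Gl.Local

set_option autoImplicit false

open NumberField Module
open scoped IntermediateField

namespace Pool.Agent.Results.MP_695920_nt.SubfieldCriterion

/-- `[X : Y]` is a power of `l` and `X / Y` has a solvable Galois closure. -/
def PowerStep (l : ℕ) {X : Type} [Field X] [NumberField X] (Y : IntermediateField ℚ X) : Prop :=
  (∃ j : ℕ, finrank Y X = l ^ j) ∧
    ∃ α : X, Y ⊔ ℚ⟮α⟯ = ⊤ ∧ Group.IsSolvable (minpoly Y α).Gal

/-- Any two embeddings of `X` in `L` which agree on `Y` differ by a power of `g` (for a Galois field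
`L` and the Frobenius automorphism `g` of an unramified prime number this says that the primes of
`Y` above it are inert in `X`). -/
def Inert {X L : Type} [Field X] [NumberField X] [Field L] [NumberField L]
    (Y : IntermediateField ℚ X) (g : L ≃ₐ[ℚ] L) : Prop :=
  ∀ s t : X →ₐ[ℚ] L, (∀ x ∈ Y, s x = t x) → ∃ i : ℤ, ∀ x : X, (g ^ i) (s x) = t x

/-- `g` fixes the conjugates of `Y`, that is, the Galois closure of `Y` in `L`. -/
def Fixes {X L : Type} [Field X] [NumberField X] [Field L] [NumberField L]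
    (Y : IntermediateField ℚ X) (g : L ≃ₐ[ℚ] L) : Prop :=
  ∀ s : X →ₐ[ℚ] L, ∀ x ∈ Y, g (s x) = s x

/-- For every Galois number field `L` containing `X`: no `g` which fixes the closure of `Y` is
`Inert`; or all the `Inert` automorphisms fix one element `y` of the closure of `Y` which is not
rational. -/
def MildStep {X : Type} [Field X] [NumberField X] (Y : IntermediateField ℚ X) : Prop :=
  ∀ (L : Type) [Field L] [NumberField L] [IsGalois ℚ L], Nonempty (X →ₐ[ℚ] L) →
    (∀ g : L ≃ₐ[ℚ] L, Fixes Y g → ¬ Inert Y g) ∨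
    ∃ y : L, y ∉ Set.range (algebraMap ℚ L) ∧
      ∀ g : L ≃ₐ[ℚ] L, Fixes Y g ∨ Inert Y g → g y = y

/-- The subfield `Y` of `X` contains `z + z⁻¹` for a primitive `l`-th root of unity `z`, that is, the
maximal real subfield of the `l`-th cyclotomic field (`ℚ` for `l = 3`). -/
def HasReal (l : ℕ) {X : Type} [Field X] [NumberField X] (Y : IntermediateField ℚ X) : Prop :=
  ∃ r ∈ Y, ∃ z : AlgebraicClosure X, IsPrimitiveRoot z l ∧
    algebraMap X (AlgebraicClosure X) r = z + z⁻¹

/-- `X` contains `z + z⁻¹` but no primitive `l`-th root of unity `z`, and if `Y` contains `z + z⁻¹`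
then `[X : Y]` is even. -/
def EvenStep (l : ℕ) {X : Type} [Field X] [NumberField X] (Y : IntermediateField ℚ X) : Prop :=
  (∀ x : X, ¬ IsPrimitiveRoot x l) ∧ HasReal l (⊤ : IntermediateField ℚ X) ∧
    (HasReal l Y → Even (finrank Y X))

/-- The extensions `X / Y` which give a power saving when `Y` has small discriminant and the fields
between `Y` and `X` have large discriminant. -/
def GoodStep (l : ℕ) {X : Type} [Field X] [NumberField X] (Y : IntermediateField ℚ X) : Prop :=
  PowerStep l Y ∨ MildStep Y ∨ (l = 3 ∧ finrank Y X = 2) ∨ EvenStep l Y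

/-- For the subfield `F` of `K` there is a subfield `X` of `K`, not contained in `F`, such that
`X / X ∩ F` is a `GoodStep`. -/
def Escapes (l : ℕ) {K : Type} [Field K] [NumberField K] (F : IntermediateField ℚ K) : Prop :=
  ∃ X : IntermediateField ℚ K, ¬ X ≤ F ∧ GoodStep l (F.comap X.val)

/-- A power saving in `T` for the `l`-torsion of the class group of every number field `K` of degree
`n` all of whose proper subfields of discriminant less than `T` (it is enough to consider those
containing a given subfield `S` of small discriminant) satisfy `Escapes`. -/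
theorem result (l : ℕ) (hl : l.Prime) (hl2 : l ≠ 2) (n : ℕ) :
    ∃ (δ : ℝ) (A : ℕ), 0 < δ ∧ ∀ ε : ℝ, 0 < ε → ∃ C : ℝ,
      ∀ (K : Type) [Field K] [NumberField K] (S : IntermediateField ℚ K) (T : ℝ),
        finrank ℚ K = n → 0 < T → T ≤ |(discr K : ℝ)| →
        (∀ F : IntermediateField ℚ K, S ≤ F → F ≠ ⊤ → |(discr F : ℝ)| < T → Escapes l F) →
        (Nat.card {x : ClassGroup (𝓞 K) // x ^ l = 1} : ℝ) ≤
          C * |(discr K : ℝ)| ^ (1 / 2 + ε) * |(discr S : ℝ)| ^ A * T ^ (-δ) :=
  Pool.Agent.Lib.MP_695920_nt.Gl.local_bound hl hl2 n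

/-! Consequences -/

lemma abs_discr_bot {K : Type} [Field K] [NumberField K] :
    |(discr (⊥ : IntermediateField ℚ K) : ℝ)| = 1 := by
  rw [Pool.Agent.Lib.MP_695920_nt.Sx.absDiscr_eq_of_equiv
    (IntermediateField.botEquiv ℚ K), Rat.numberField_discr]
  norm_num

/-- An exponent smaller than `1 / 2` for the fields all of whose proper subfields satisfy
`Escapes`. -/
theorem escapes_bound (l : ℕ) (hl : l.Prime) (hl2 : l ≠ 2) (n : ℕ) :
    ∃ Δ : ℝ, Δ < 1 / 2 ∧ ∃ C : ℝ, ∀ (K : Type) [Field K] [NumberField K],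
      finrank ℚ K = n → (∀ F : IntermediateField ℚ K, F ≠ ⊤ → Escapes l F) →
      (Nat.card {x : ClassGroup (𝓞 K) // x ^ l = 1} : ℝ) ≤ C * |(discr K : ℝ)| ^ Δ := by
  obtain ⟨δ, A, hδ, h⟩ := result l hl hl2 n
  obtain ⟨C, hC⟩ := h (δ / 2) (by positivity)
  refine ⟨1 / 2 - δ / 2, by linarith, C, fun K _ _ hK hR => ?_⟩
  have hD : 0 < |(discr K : ℝ)| := abs_pos.mpr (by exact_mod_cast discr_ne_zero K)
  have h1 := hC K ⊥ |(discr K : ℝ)| hK hD le_rfl (fun F _ hF _ => hR F hF)
  rw [abs_discr_bot, one_pow, mul_one, mul_assoc, ← Real.rpow_add hD] at h1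
  have h2 : 1 / 2 + δ / 2 + -δ = 1 / 2 - δ / 2 := by ring
  rw [h2] at h1
  exact h1

lemma solvable_of_finrank_three {F K : Type} [Field F] [Field K] [Algebra F K]
    [FiniteDimensional F K] (h : finrank F K = 3) (α : K) :
    Group.IsSolvable (minpoly F α).Gal := by
  have hfact : Fact (((minpoly F α).map
      (algebraMap F (minpoly F α).SplittingField)).Splits) :=
    ⟨Polynomial.SplittingField.splits _⟩
  have h1 : Set.ncard ((minpoly F α).rootSet (minpoly F α).SplittingField) ≤ 3 :=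
    (Polynomial.ncard_rootSet_le _ _).trans (h ▸ minpoly.natDegree_le (A := F) α)
  have h2 : Nonempty ((minpoly F α).rootSet (minpoly F α).SplittingField ↪ Fin 3) := by
    have hfin : Finite ((minpoly F α).rootSet (minpoly F α).SplittingField) :=
      Polynomial.rootSet_finite _ _
    cases nonempty_fintype ((minpoly F α).rootSet (minpoly F α).SplittingField)
    rw [Function.Embedding.nonempty_iff_card_le, Fintype.card_fin, ← Nat.card_eq_fintype_card]
    exact h1
  have h3 := Pool.Agent.Lib.MP_695920_nt.Sx.solvable_perm_three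
  have h4 : Group.IsSolvable (Equiv.Perm
      ((minpoly F α).rootSet (minpoly F α).SplittingField)) :=
    Group.isSolvable_of_isSolvable_injective
      (f := Equiv.Perm.viaEmbeddingHom h2.some) (Equiv.Perm.viaEmbeddingHom_injective _)
  exact Group.isSolvable_of_isSolvable_injective
    (f := Polynomial.Gal.galActionHom (minpoly F α) (minpoly F α).SplittingField)
    (Polynomial.Gal.galActionHom_injective _ _)

/-- cubic extensions are good for `l = 3` -/
lemma good_three {X : Type} [Field X] [NumberField X] {Y : IntermediateField ℚ X}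
    (h : finrank Y X = 3) : GoodStep 3 Y := by
  left
  obtain ⟨α, hα⟩ := Field.exists_primitive_element ℚ X
  refine ⟨⟨1, by rw [h, pow_one]⟩, α, ?_, solvable_of_finrank_three h α⟩
  rw [hα, sup_top_eq]

/-- quadratic extensions are good for `l = 3` -/
lemma good_two {X : Type} [Field X] [NumberField X] {Y : IntermediateField ℚ X}
    (h : finrank Y X = 2) : GoodStep 3 Y :=
  Or.inr (Or.inr (Or.inl ⟨rfl, h⟩))

lemma hasReal_three {X : Type} [Field X] [NumberField X] (Y : IntermediateField ℚ X) :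
    HasReal 3 Y :=
  ⟨-1, Y.neg_mem Y.one_mem, Pool.Agent.Lib.MP_695920_nt.Gl.rr_neg_one X⟩

lemma finrank_mul (X : Type) [Field X] [NumberField X] (Y : IntermediateField ℚ X) :
    finrank ℚ Y * finrank Y X = finrank ℚ X :=
  finrank_mul_finrank ℚ Y X

lemma finrank_comap {K : Type} [Field K] [NumberField K] (X F : IntermediateField ℚ K) :
    finrank ℚ (F.comap X.val : IntermediateField ℚ X) * finrank (F.comap X.val) X = finrank ℚ X ∧
      finrank ℚ (F.comap X.val : IntermediateField ℚ X) =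
        finrank ℚ (X ⊓ F : IntermediateField ℚ K) := by
  refine ⟨finrank_mul X (F.comap X.val), ?_⟩
  have h1 : (F.comap X.val).map X.val = X ⊓ F := by
    ext x
    constructor
    · rintro ⟨y, hy, rfl⟩
      exact ⟨y.2, hy⟩
    · rintro ⟨hx, hF⟩
      exact ⟨⟨x, hx⟩, hF, rfl⟩
  rw [← h1]
  exact (IntermediateField.equivMap (F.comap X.val) X.val).toLinearEquiv.finrank_eq

/-- `E` is obtained from `ℚ` by successive quadratic and cubic extensions. -/
def QuadCubicTower {K : Type} [Field K] [NumberField K] (E : IntermediateField ℚ K) : Prop :=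
  ∃ (k : ℕ) (f : ℕ → IntermediateField ℚ K), f 0 = ⊥ ∧ f k = E ∧
    ∀ i < k, f i ≤ f (i + 1) ∧ (finrank ℚ (f (i + 1)) = 2 * finrank ℚ (f i) ∨
      finrank ℚ (f (i + 1)) = 3 * finrank ℚ (f i))

lemma escapes_of_tower {K : Type} [Field K] [NumberField K] {E F : IntermediateField ℚ K}
    (h : QuadCubicTower E) (hF : ¬ E ≤ F) : Escapes 3 F := by
  classical
  obtain ⟨k, f, h0, hk, hf⟩ := h
  have hex : ∃ i, ¬ f i ≤ F := ⟨k, hk ▸ hF⟩
  obtain ⟨i, hi⟩ : ∃ i, Nat.find hex = i + 1 := by
    apply Nat.exists_eq_succ_of_ne_zero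
    intro h1
    have h2 := Nat.find_spec hex
    rw [h1, h0] at h2
    exact h2 bot_le
  have h1 : ¬ f (i + 1) ≤ F := hi ▸ Nat.find_spec hex
  have h2 : f i ≤ F := by
    by_contra hcon
    have := Nat.find_min' hex hcon
    omega
  have hik : i < k := by
    have := Nat.find_min' hex (hk ▸ hF : ¬ f k ≤ F)
    omega
  obtain ⟨hle, hdeg⟩ := hf i hik
  obtain ⟨e1, e2⟩ := finrank_comap (f (i + 1)) F
  have hpos : 0 < finrank ℚ (f i) := finrank_pos
  obtain ⟨b, hb⟩ := IntermediateField.finrank_dvd_of_le_right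
    (le_inf hle h2 : f i ≤ f (i + 1) ⊓ F)
  set m := finrank (F.comap (f (i + 1)).val) (f (i + 1)) with hm
  have hm1 : m ≠ 1 := by
    intro h3
    apply h1
    have h4 := IntermediateField.finrank_eq_one_iff_eq_top.mp h3
    intro x hx
    have h5 : (⟨x, hx⟩ : f (i + 1)) ∈ F.comap (f (i + 1)).val := by
      rw [h4]
      exact IntermediateField.mem_top
    exact h5
  have hcase : ∀ p : ℕ, p.Prime → finrank ℚ (f (i + 1)) = p * finrank ℚ (f i) → m = p := by
    intro p hp h3
    rw [e2, hb, h3] at e1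
    have h4 : b * m = p := by
      apply Nat.eq_of_mul_eq_mul_left hpos
      rw [← mul_assoc, e1, mul_comm]
    rcases (Nat.dvd_prime hp).mp (Dvd.intro_left b h4) with h5 | h5
    · exact absurd h5 hm1
    · exact h5
  refine ⟨f (i + 1), h1, ?_⟩
  rcases hdeg with h3 | h3
  · exact good_two (hcase 2 Nat.prime_two h3)
  · exact good_three (hcase 3 Nat.prime_three h3)

/-- A saving for the 3-torsion of all extensions `K` of a field `E` which is obtained from `ℚ` by
successive quadratic and cubic extensions. -/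
theorem tower_bound (n : ℕ) : ∃ δ : ℝ, 0 < δ ∧ ∀ ε : ℝ, 0 < ε → ∃ C : ℝ,
    ∀ (K : Type) [Field K] [NumberField K] (E : IntermediateField ℚ K),
      finrank ℚ K = n → QuadCubicTower E →
      (Nat.card {x : ClassGroup (𝓞 K) // x ^ 3 = 1} : ℝ) ≤
        C * |(discr K : ℝ)| ^ (1 / 2 + ε) * |(discr E : ℝ)| ^ (-δ) := by
  obtain ⟨δ, A, hδ, h⟩ := result 3 Nat.prime_three (by norm_num) n
  refine ⟨δ, hδ, fun ε hε => ?_⟩
  obtain ⟨C, hC⟩ := h ε hε
  refine ⟨C, fun K _ _ E hK hE => ?_⟩
  have h1 := hC K ⊥ |(discr E : ℝ)| hK (abs_pos.mpr (by exact_mod_cast discr_ne_zero E))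
    (Pool.Agent.Lib.MP_695920_nt.Gl.discr_le_of_algebra K E) (by
    intro F _ _ hlt
    apply escapes_of_tower hE
    intro hEF
    have := Pool.Agent.Lib.MP_695920_nt.Gl.discr_le_of_le hEF
    linarith)
  rwa [abs_discr_bot, one_pow, mul_one] at h1

/-- the fields of degree `2 ^ a * 3 ^ b`, `b ≤ 1`, of degree at most `6` or without `√-3` -/
theorem escapes_of_degree {K : Type} [Field K] [NumberField K] {a b : ℕ} (hb : b ≤ 1)
    (hn : finrank ℚ K = 2 ^ a * 3 ^ b) (hK : finrank ℚ K ≤ 6 ∨ ∀ x : K, x ^ 2 ≠ -3)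
    (F : IntermediateField ℚ K) (hF : F ≠ ⊤) : Escapes 3 F := by
  by_cases hs : ∃ s : K, s ^ 2 = -3
  · -- a tower of quadratic and cubic extensions
    obtain ⟨s, hs⟩ := hs
    have h6 : finrank ℚ K ≤ 6 := hK.resolve_right fun h => h s hs
    have h2 := Pool.Agent.Lib.MP_695920_nt.Sx.finrank_sqrt hs
    have h3 := finrank_mul_finrank ℚ ℚ⟮s⟯ K
    rw [h2] at h3
    have htop : finrank ℚ (⊤ : IntermediateField ℚ K) = finrank ℚ K :=
      IntermediateField.finrank_top'
    have hbot : finrank ℚ (⊥ : IntermediateField ℚ K) = 1 := IntermediateField.finrank_bot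
    have hpos : 0 < finrank ℚ⟮s⟯ K := finrank_pos
    obtain h | h : finrank ℚ⟮s⟯ K = 1 ∨ (finrank ℚ⟮s⟯ K = 2 ∨ finrank ℚ⟮s⟯ K = 3) := by omega
    · apply escapes_of_tower (E := ⊤) _ (fun h => hF (top_le_iff.mp h))
      refine ⟨1, fun i => if i = 0 then ⊥ else ⊤, rfl, rfl, ?_⟩
      intro i hi
      obtain rfl : i = 0 := by omega
      refine ⟨bot_le, Or.inl ?_⟩
      change finrank ℚ (⊤ : IntermediateField ℚ K) = 2 * finrank ℚ (⊥ : IntermediateField ℚ K)
      rw [htop, hbot, ← h3, h]
    · apply escapes_of_tower (E := ⊤) _ (fun h => hF (top_le_iff.mp h))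
      refine ⟨2, fun i => if i = 0 then ⊥ else if i = 1 then ℚ⟮s⟯ else ⊤, rfl, rfl, ?_⟩
      intro i hi
      obtain rfl | rfl : i = 0 ∨ i = 1 := by omega
      · refine ⟨bot_le, Or.inl ?_⟩
        change finrank ℚ ℚ⟮s⟯ = 2 * finrank ℚ (⊥ : IntermediateField ℚ K)
        rw [h2, hbot]
      · refine ⟨le_top, ?_⟩
        change finrank ℚ (⊤ : IntermediateField ℚ K) = 2 * finrank ℚ ℚ⟮s⟯ ∨
          finrank ℚ (⊤ : IntermediateField ℚ K) = 3 * finrank ℚ ℚ⟮s⟯
        rw [htop, h2, ← h3]
        omega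
  · push Not at hs
    refine ⟨⊤, fun h => hF (top_le_iff.mp h), ?_⟩
    obtain ⟨e1, e2⟩ := finrank_comap ⊤ F
    rw [IntermediateField.finrank_top', hn] at e1
    set m := finrank (F.comap (⊤ : IntermediateField ℚ K).val) (⊤ : IntermediateField ℚ K) with hm
    have hm1 : m ≠ 1 := by
      intro h3
      apply hF
      have h4 := IntermediateField.finrank_eq_one_iff_eq_top.mp h3
      rw [eq_top_iff]
      intro x _
      have h5 : (⟨x, IntermediateField.mem_top⟩ : (⊤ : IntermediateField ℚ K)) ∈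
          F.comap (⊤ : IntermediateField ℚ K).val := by
        rw [h4]
        exact IntermediateField.mem_top
      exact h5
    rcases Nat.even_or_odd m with he | ho
    · refine Or.inr (Or.inr (Or.inr ⟨?_, hasReal_three _, fun _ => he⟩))
      intro x hx
      have h2 := Pool.Agent.Lib.MP_695920_nt.Gl.exists_omega_of_root
        (hx.map_of_injective (f := (⊤ : IntermediateField ℚ K).val) Subtype.val_injective)
      apply hs (2 * (x : K) + 1)
      have h3 : (x : K) ^ 2 + x + 1 = 0 := h2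
      linear_combination 4 * h3
    · apply good_three
      have h2 : m ∣ 2 ^ a * 3 ^ b := Dvd.intro_left _ e1
      have h3 : Nat.Coprime m (2 ^ a) := by
        apply Nat.Coprime.pow_right
        rw [Nat.coprime_comm, Nat.coprime_two_left]
        exact ho
      have h4 : m ∣ 3 := (h3.dvd_of_dvd_mul_left h2).trans (by
        calc 3 ^ b ∣ 3 ^ 1 := pow_dvd_pow 3 hb
          _ = 3 := pow_one 3)
      rcases (Nat.dvd_prime Nat.prime_three).mp h4 with h | h
      · exact absurd h hm1
      · exact h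

/-- The pairs `(n, 3)` with `n = 2 ^ a * 3 ^ b`, `b ≤ 1`: an exponent smaller than `1 / 2` for all
fields of degree `n`, for `n > 6` without `√-3`. In particular `n = 4` and `n = 6`. -/
theorem three_torsion_degrees (a b : ℕ) (hb : b ≤ 1) : ∃ Δ : ℝ, Δ < 1 / 2 ∧ ∃ C : ℝ,
    ∀ (K : Type) [Field K] [NumberField K], finrank ℚ K = 2 ^ a * 3 ^ b →
      (finrank ℚ K ≤ 6 ∨ ∀ x : K, x ^ 2 ≠ -3) →
      (Nat.card {x : ClassGroup (𝓞 K) // x ^ 3 = 1} : ℝ) ≤ C * |(discr K : ℝ)| ^ Δ := by
  obtain ⟨Δ, hΔ, C, hC⟩ := escapes_bound 3 Nat.prime_three (by norm_num) (2 ^ a * 3 ^ b)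
  exact ⟨Δ, hΔ, C, fun K _ _ hn hK => hC K hn (escapes_of_degree hb hn hK)⟩

end Pool.Agent.Results.MP_695920_nt.SubfieldCriterion
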