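import Mathlib
import Pool.Agent.Lib.MP_695920_nt.TT.Five.FinalT
import Pool.Agent.Lib.MP_695920_nt.TT.Five.FinalC
import Pool.Agent.Lib.MP_695920_nt.TT.Quartic.Final

set_option autoImplicit false

open NumberField Module Real

namespace Pool.Agent.Results.MP_695920_nt.TwoTorsion

/-- `κ(s) = (1 / √(1 - s ^ 2) - 1) / 2` -/
noncomputable def kappa (s : ℝ) : ℝ := (1 / √(1 - s ^ 2) - 1) / 2

/-- the rate of Kabatiansky and Levenshtein, `((1 + κ) log (1 + κ) - κ log κ) / log 2` -/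
noncomputable def rate (s : ℝ) : ℝ :=
  ((1 + kappa s) * log (1 + kappa s) - kappa s * log (kappa s)) / log 2

/-- the exponent -/
noncomputable def Delta (n : ℕ) : ℝ :=
  if n ≤ 4 then 7 / 36 / (1 - rate (5 / 12)) else (1 / 2 - 1 / n) / (1 - rate (1 / (n - 1)))

theorem result :
    (∀ n : ℕ, 3 ≤ n → ∀ ε : ℝ, 0 < ε → ∃ C : ℝ,
      ∀ (K : Type) [Field K] [NumberField K], finrank ℚ K = n →
        (Nat.card {x : ClassGroup (𝓞 K) // x ^ 2 = 1} : ℝ) ≤
          C * |(discr K : ℝ)| ^ (Delta n + ε)) ∧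
    Delta 3 < 274 / 1000 ∧ Delta 4 < 274 / 1000 ∧ Delta 5 < 3415 / 10000 ∧
    (∀ n : ℕ, 5 ≤ n → Delta n < 1 / 2 - 1 / (2 * n)) ∧
    ∀ δ : ℝ, 0 < δ → ∃ n₀ : ℕ, ∀ n : ℕ, n₀ ≤ n → Delta n ≤ 1 / 2 - (1 - δ) / n := by
  have h3 : Delta 3 = Pool.TT.Five.thetaT 3 (1 / 6) := by
    rw [Delta, if_pos (by norm_num), Pool.TT.Five.thetaT_three]
    rfl
  have h5 : ∀ n : ℕ, 5 ≤ n → Delta n = Pool.TT.Five.thetaKL n := by
    intro n hn
    rw [Delta, if_neg (by omega)]
    rfl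
  have h4 : Delta 4 = Pool.TT.Five.thetaT 3 (1 / 6) := by
    rw [Delta, if_pos (by norm_num), Pool.TT.Five.thetaT_three]
    rfl
  refine ⟨fun n hn ε hε => ?_, ?_, ?_, ?_, fun n hn => ?_, fun δ hδ => ?_⟩
  · rcases Nat.lt_or_ge n 5 with h | h
    · have hn34 : n = 3 ∨ n = 4 := by omega
      rcases hn34 with rfl | rfl
      · rw [h3]
        exact Pool.TT.Five.main_three hε
      · rw [h4]
        have h6 : Pool.TTQ.Bd 3 (Pool.TT.Five.thetaT 3 (1 / 6)) := by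
          intro ε hε
          obtain ⟨C, hC⟩ := Pool.TT.Five.main_three hε
          refine ⟨max C 1, by positivity, fun K _ _ hK => (hC K hK).trans ?_⟩
          exact mul_le_mul_of_nonneg_right (le_max_left _ _) (by positivity)
        have h7 : 0 ≤ Pool.TT.Five.thetaT 3 (1 / 6) := by
          have h8 := Pool.TT.Five.bT_three_lt
          exact div_nonneg (by norm_num) (by linarith)
        obtain ⟨C, -, hC⟩ := Pool.TTQ.quartic_of_cubic h7 h6 ε hε
        exact ⟨C, hC⟩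
    · rw [h5 n h]
      exact Pool.TT.Five.main_kl n h hε
  · rw [h3]
    exact Pool.TT.Five.thetaT_three_lt
  · rw [h4]
    exact Pool.TT.Five.thetaT_three_lt
  · rw [h5 5 le_rfl]
    exact Pool.TT.Five.thetaKL_five
  · rw [h5 n hn]
    exact Pool.TT.Five.thetaKL_lt hn
  · obtain ⟨n₀, h⟩ := Pool.TT.Five.thetaKL_le hδ
    refine ⟨max n₀ 5, fun n hn => ?_⟩
    rw [h5 n (le_trans (le_max_right _ _) hn)]
    exact h n (le_trans (le_max_left _ _) hn)

end Pool.Agent.Results.MP_695920_nt.TwoTorsion
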